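import Pool.Agent.Q66.RX.Fin

/-!
# The uniform groups of families in a locally compact abelian group are reflexive

Groups are written multiplicatively, `X` is a locally compact abelian Hausdorff group with its group
uniformity, and `I` a set of indices.  `UniformFun I X` is the group of all families `I → X` with the
topology of uniform convergence.  `c0 I X` and `linf I X` are its subgroups of the families tending to
one (along the cofinite filter) and of the families whose set of members is totally bounded, with the
subspace topology.  `Reflexive G`: the evaluation map from `G` to its bidual, both duals with the
compact open topology, is a homeomorphism.

Proof: compact sets of characters are equicontinuous (a sequence of small families violating this is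
modified by an extension argument in a divisible group so that it tends to one), characters of the
dual are evaluations (approximation of the identity on compact sets), and neighbourhoods of one contain
polars of compact sets.  `UniformFun I X` contains `linf I X` as an open subgroup.
-/

set_option autoImplicit false

namespace Pool.Agent.Results.MP_c93b6d_al.FamiliesReflexive

open Pool.Agent.Q66.RX

theorem result (X : Type) [CommGroup X] [UniformSpace X] [IsUniformGroup X]
    [LocallyCompactSpace X] [T2Space X] (I : Type) :
    Reflexive (c0 I X) ∧ Reflexive (linf I X) ∧ Reflexive (UniformFun I X) :=
  fin I X

end Pool.Agent.Results.MP_c93b6d_al.FamiliesReflexive
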